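import Pool.Agent.H64.EK.Targets

/-! Row IDX of ekm_modules (MP_fd35e1_ag): projectors. -/

set_option autoImplicit false

open Matrix Pool.Agent.H64.CC Pool.Agent.H2.NL Pool.Agent.H2.KM Pool.Agent.H64.EV
  Pool.Agent.H64.EK

namespace Pool.Agent.H1.EK

theorem sg_sq (K : Type) [Field K] (b : Bool) : sg K b * sg K b = 1 := by
  unfold sg
  cases b <;> simp

theorem twl_sq (K : Type) [Field K] {I : Type} (o : I → Bool) :
    ∀ (w : List I) (i : ℕ), twl K o i w * twl K o i w = 1
  | [], i => mul_one 1
  | a :: w, i => by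
    have h1 := twl_sq K o w (i + 1)
    have h2 : sg K (o a) ^ i * sg K (o a) ^ i = 1 := by
      rw [← mul_pow, sg_sq, one_pow]
    show sg K (o a) ^ i * twl K o (i + 1) w * (sg K (o a) ^ i * twl K o (i + 1) w) = 1
    calc sg K (o a) ^ i * twl K o (i + 1) w * (sg K (o a) ^ i * twl K o (i + 1) w) =
        (sg K (o a) ^ i * sg K (o a) ^ i) * (twl K o (i + 1) w * twl K o (i + 1) w) := by ring
      _ = 1 := by rw [h1, h2, mul_one]

theorem pf_IDX (hXPS : T_XPS) (hIDP : T_IDP) : T_IDX := by
  rintro K _ _ I _ _ o f hf hff z (rfl | rfl) n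
  · have h1 : Xp 1 o f n = Sp o f n := by
      ext u v
      exact (hXPS K I I o o f hf u.1 v.1).1
    rw [h1]
    exact hIDP K I o f hf hff n
  · have hf' : ∀ a b, f a b ≠ 0 → fo o a = fo o b := by
      intro a b hab
      unfold fo
      rw [hf a b hab]
    have h1 : Xp (-1) o f n = Matrix.diagonal (fun u : List.Vector I n => twl K o 0 u.1) *
        Sp (fo o) f n * Matrix.diagonal (fun u : List.Vector I n => twl K o 0 u.1) := by
      ext u v
      rw [Matrix.mul_diagonal, Matrix.diagonal_mul]
      exact (hXPS K I I o o f hf u.1 v.1).2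
    have hD : Matrix.diagonal (fun u : List.Vector I n => twl K o 0 u.1) *
        Matrix.diagonal (fun u : List.Vector I n => twl K o 0 u.1) = 1 := by
      rw [Matrix.diagonal_mul_diagonal]
      simp only [twl_sq]
      exact Matrix.diagonal_one
    have h2 := hIDP K I (fo o) f hf' hff n
    rw [h1]
    generalize Matrix.diagonal (fun u : List.Vector I n => twl K o 0 u.1) = D at hD
    calc D * Sp (fo o) f n * D * (D * Sp (fo o) f n * D) =
        D * Sp (fo o) f n * (D * D) * Sp (fo o) f n * D := by
          simp only [Matrix.mul_assoc]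
      _ = D * (Sp (fo o) f n * Sp (fo o) f n) * D := by
          rw [hD, Matrix.mul_one, Matrix.mul_assoc D]
      _ = (n.factorial : K) • (D * Sp (fo o) f n * D) := by
          rw [h2, Matrix.mul_smul, Matrix.smul_mul]

end Pool.Agent.H1.EK
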